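import Pool.Agent.Work.MP_70d3c3_lc.Final

set_option autoImplicit false

namespace Pool.Agent.Results.MP_70d3c3_lc.TwelveActiveBins

open Filter
open scoped ENNReal

/-- The terms of the list `L` are item sizes. -/
def Items (L : List ℝ) : Prop := ∀ a ∈ L, 0 < a ∧ a ≤ 1

/-- The minimum number of bins of capacity one into which `L` can be packed. -/
noncomputable def OPT (L : List ℝ) : ℕ :=
  sInf {m : ℕ | ∃ f : Fin L.length → Fin m, ∀ j : Fin m,
    ∑ i ∈ (Finset.univ : Finset (Fin L.length)).filter (fun i : Fin L.length => f i = j), L.get i ≤ 1}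

/-- The bins which receive an item when the on-line algorithm `A` packs `L`: the item `x` which arrives after the
items of the list `p` is put into the bin with the name `A p x`. -/
def bins (A : List ℝ → ℝ → ℕ) (L : List ℝ) : Finset ℕ :=
  (Finset.univ : Finset (Fin L.length)).image fun i : Fin L.length => A (L.take (i : ℕ)) (L.get i)

/-- No bin ever contains more than its capacity. -/
def Packs (A : List ℝ → ℝ → ℕ) : Prop :=
  ∀ L : List ℝ, Items L → ∀ b : ℕ, ∑ i ∈ (Finset.univ : Finset (Fin L.length)).filter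
    (fun i : Fin L.length => A (L.take (i : ℕ)) (L.get i) = b), L.get i ≤ 1

/-- `A` is `k`-bounded-space: `act p x` is the set of the active bins when the item `x` is packed after the items of `p`;
it has at most `k` elements, it contains the bin of `x` (which may be new), and a bin which has received an item and is
not active when `x` is packed is not active when the next item `y` is packed (hence never again). -/
def BoundedSpace (k : ℕ) (A : List ℝ → ℝ → ℕ) : Prop :=
  ∃ act : List ℝ → ℝ → Finset ℕ, ∀ (p : List ℝ) (x : ℝ), Items (p ++ [x]) →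
    (act p x).card ≤ k ∧ A p x ∈ act p x ∧
      ∀ y : ℝ, 0 < y → y ≤ 1 → ∀ b ∈ bins A (p ++ [x]), b ∈ act (p ++ [x]) y → b ∈ act p x

/-- `R_A^n`, the supremum of `A(L) / OPT(L)` over the lists `L` of items with `OPT(L) = n`. -/
noncomputable def ratio (A : List ℝ → ℝ → ℕ) (n : ℕ) : ℝ≥0∞ :=
  ⨆ (L : List ℝ) (_ : Items L ∧ OPT L = n), ((bins A L).card : ℝ≥0∞) / (n : ℝ≥0∞)

/-- `2, 3, 7, 43, ...` -/
def t : ℕ → ℕ
  | 0 => 2
  | i + 1 => t i * (t i - 1) + 1

/-- `h_∞` -/
noncomputable def h : ℝ := ∑' i : ℕ, 1 / ((t i : ℝ) - 1)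

open Pool.Agent.Work.MP_70d3c3_lc in
/-- the bins which can be used again -/
private theorem bs_aux : BoundedSpace 12 best := by
  classical
  let O : List ℝ → Finset ℕ := fun p => (used best p).filter fun b =>
    ∃ q : List ℝ, ∃ x : ℝ, Items q ∧ (0 < x ∧ x ≤ 1) ∧ best (p ++ q) x = b
  have hO : ∀ p, Items p → (O p).card ≤ 11 := by
    intro p hp
    obtain ⟨T, hT1, hT2⟩ := good_best.open_le p hp
    refine (Finset.card_le_card ?_).trans hT1
    intro b hb
    obtain ⟨h1, q, x, h2, h3, h4⟩ := Finset.mem_filter.1 hb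
    exact hT2 b h1 q x h2 h3 h4
  refine ⟨fun p x => insert (best p x) (O (p ++ [x])), fun p x hpx => ⟨?_, Finset.mem_insert_self _ _, ?_⟩⟩
  · exact (Finset.card_insert_le _ _).trans (Nat.succ_le_succ (hO _ hpx))
  · intro y hy0 hy1 b hb hby
    have hb' : b ∈ used best (p ++ [x]) := hb
    refine Finset.mem_insert_of_mem (Finset.mem_filter.2 ⟨hb', ?_⟩)
    rcases Finset.mem_insert.1 hby with h1 | h1
    · exact ⟨[], y, by intro a ha; simp at ha, ⟨hy0, hy1⟩, by rw [List.append_nil]; exact h1.symm⟩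
    · obtain ⟨-, q, z, h2, h3, h4⟩ := Finset.mem_filter.1 h1
      refine ⟨[y] ++ q, z, ?_, h3, ?_⟩
      · intro a ha
        rcases List.mem_append.1 ha with ha | ha
        · rw [List.mem_singleton] at ha
          rw [ha]
          exact ⟨hy0, hy1⟩
        · exact h2 a ha
      · rw [← List.append_assoc]
        exact h4

/-- There is an on-line bin packing algorithm which never has more than twelve active bins and which needs at most
`h_∞ * OPT(L) + 13` bins for every list `L` of items; its asymptotic worst case ratio is exactly `h_∞`. -/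
theorem result : ∃ A : List ℝ → ℝ → ℕ, Packs A ∧ BoundedSpace 12 A ∧
    (∀ L : List ℝ, Items L → ((bins A L).card : ℝ) ≤ h * (OPT L : ℝ) + 13) ∧
    limsup (ratio A) atTop = ENNReal.ofReal h := by
  have hh : h = Pool.Agent.Work.MP_70d3c3_lc.T 0 :=
    Pool.Agent.Work.MP_70d3c3_lc.T_zero_eq t rfl fun _ => rfl
  have good := Pool.Agent.Work.MP_70d3c3_lc.good_best
  have key : ∀ L : List ℝ, Items L → ((bins Pool.Agent.Work.MP_70d3c3_lc.best L).card : ℝ) ≤ h * (OPT L : ℝ) + 13 := by
    intro L hL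
    have h1 := good.count_le L hL
    have h2 := Pool.Agent.Work.MP_70d3c3_lc.sum_W_opt L hL
    rw [← hh] at h2
    have h3 : (L.map Pool.Agent.Work.MP_70d3c3_lc.W).sum + 13 ≤ h * (OPT L : ℝ) + 13 := by
      have h4 : (L.map Pool.Agent.Work.MP_70d3c3_lc.W).sum ≤ h * (OPT L : ℝ) := h2
      linarith
    exact h1.trans h3
  refine ⟨Pool.Agent.Work.MP_70d3c3_lc.best, fun L hL b => good.load_le L hL b, bs_aux, key, le_antisymm ?_ ?_⟩
  · -- upper bound
    have hpos : 0 ≤ h := by
      rw [hh]
      exact tsum_nonneg fun i => by positivity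
    refine ENNReal.le_of_forall_pos_le_add fun ε hε _ => ?_
    obtain ⟨N, hN⟩ := exists_nat_gt (13 / (ε : ℝ))
    refine limsup_le_of_le (by isBoundedDefault) ?_
    filter_upwards [eventually_ge_atTop (max N 1)] with n hn
    have hn1 : 1 ≤ n := le_trans (le_max_right _ _) hn
    have hnN : N ≤ n := le_trans (le_max_left _ _) hn
    have hε' : (0 : ℝ) < ε := hε
    refine iSup₂_le fun L hL => ?_
    have h1 := key L hL.1
    rw [hL.2] at h1
    have h2 : 13 < (n : ℝ) * ε := by
      have h3 : 13 < (N : ℝ) * ε := by rwa [div_lt_iff₀ hε'] at hN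
      have h4 : (N : ℝ) ≤ n := by exact_mod_cast hnN
      nlinarith
    have h3 : ((bins Pool.Agent.Work.MP_70d3c3_lc.best L).card : ℝ) ≤ (h + ε) * n := by nlinarith
    have h4 : ENNReal.ofReal h + (ε : ℝ≥0∞) = ENNReal.ofReal (h + ε) := by
      rw [ENNReal.ofReal_add hpos hε'.le, ENNReal.ofReal_coe_nnreal]
    rw [h4]
    refine ENNReal.div_le_of_le_mul ?_
    rw [← ENNReal.ofReal_natCast, ← ENNReal.ofReal_natCast (n := n), ← ENNReal.ofReal_mul (by positivity)]
    exact ENNReal.ofReal_le_ofReal h3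
  · -- lower bound
    refine le_of_forall_lt fun c hc => ?_
    have hc' : c ≠ ⊤ := ne_top_of_lt hc
    obtain ⟨d, hcd, hdh⟩ := exists_between hc
    have hd' : d ≠ ⊤ := ne_top_of_lt hdh
    refine lt_of_lt_of_le hcd (le_limsup_of_frequently_le ?_ (by isBoundedDefault))
    rw [frequently_atTop]
    intro N
    have h0 : d.toReal < h := (ENNReal.lt_ofReal_iff_toReal_lt hd').1 hdh
    obtain ⟨L, hL, h1, h2⟩ := Pool.Agent.Work.MP_70d3c3_lc.lower good (h - d.toReal) (by linarith) (max N 1)
    have hO : Pool.Agent.Work.MP_70d3c3_lc.opt L = OPT L := rfl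
    rw [hO] at h1 h2
    refine ⟨OPT L, le_trans (le_max_left _ _) h1, ?_⟩
    refine le_trans ?_ (le_iSup₂ (f := fun (L' : List ℝ) (_ : Items L' ∧ OPT L' = OPT L) =>
      ((bins Pool.Agent.Work.MP_70d3c3_lc.best L').card : ℝ≥0∞) / (OPT L : ℝ≥0∞)) L ⟨hL, rfl⟩)
    have h3 : (OPT L : ℝ≥0∞) ≠ 0 := by
      have : 1 ≤ OPT L := le_trans (le_max_right _ _) h1
      exact_mod_cast (by omega : OPT L ≠ 0)
    rw [ENNReal.le_div_iff_mul_le (Or.inl h3) (Or.inl (ENNReal.natCast_ne_top _))]
    rw [← ENNReal.ofReal_toReal hd', ← ENNReal.ofReal_natCast, ← ENNReal.ofReal_natCast (n := Finset.card _),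
      ← ENNReal.ofReal_mul ENNReal.toReal_nonneg]
    refine ENNReal.ofReal_le_ofReal ?_
    refine le_trans (le_of_eq ?_) h2
    rw [hh]
    ring

end Pool.Agent.Results.MP_70d3c3_lc.TwelveActiveBins
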